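import Mathlib
import Pool.Agent.Helper62.Transfer

set_option linter.unusedSimpArgs false

namespace Pool.Agent.Results.MP_115300_gt.Classification

open Pool.Agent.Helper62.Skein Pool.Agent.Helper62.StateSum Pool.Agent.Helper62.Transfer Polynomial

/-- The classes of the trivial links `T_0, T_1, T_2, ...` are linearly independent in the
(4,infinity) skein module of the 3-sphere. -/
def TrivialLinksIndependent {R : Type*} [CommRing R] (a b0 b3 : Rˣ) (b1 b2 bi : R) : Prop :=
  LinearIndependent R fun i : ℕ => (relations R a b0 b3 b1 b2 bi).mkQ (link R (trivialLink i))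

/-- first family of parameters -/
def FamilyI {R : Type*} [CommRing R] (a b0 b3 : Rˣ) (b1 b2 : R) : Prop :=
  (a : R) ^ 4 = 1 ∧ b1 = -(a ^ 2 * b3) ∧ b2 = -(a ^ 2 * b0)

/-- second family of parameters -/
def FamilyII {R : Type*} [CommRing R] (a b0 b3 : Rˣ) (b1 b2 : R) : Prop :=
  (a : R) ^ 4 = 1 ∧ (b0 : R) = -(a * b3) ∧ b2 = -(a * b1)

/-- third family of parameters -/
def FamilyIII {R : Type*} [CommRing R] (a b0 b3 : Rˣ) (b1 b2 : R) : Prop :=
  (a : R) * b0 ^ 3 = -(b3 : R) ^ 3 ∧ b0 * b1 = b2 * b3 ∧ (b0 : R) ^ 2 * b1 * b3 = b0 ^ 4 + b3 ^ 4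

/-- the binomial relations `b_0 L_0 + b_3 L_3` -/
def BinomialFamily {R : Type*} [CommRing R] (a b0 b3 : Rˣ) (b1 b2 : R) : Prop :=
  b1 = 0 ∧ b2 = 0 ∧ (a : R) ^ 8 = 1 ∧ (b0 : R) = -(a ^ 5 * b3)

theorem pair_zero {R : Type*} [CommRing R] {a b0 b3 : Rˣ} {b1 b2 bi : R}
    (h : TrivialLinksIndependent a b0 b3 b1 b2 bi) {x y : R}
    (hxy : x • T1 a b0 b3 b1 b2 bi + y • T2 a b0 b3 b1 b2 bi = 0) : x = 0 ∧ y = 0 := by
  have := LinearIndependent.pair_iff.mp (h.comp (fun j : Fin 2 => (j : ℕ) + 1)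
    (fun i j hij => by ext; simpa using hij) |>.comp id Function.injective_id |> fun h' =>
      (show LinearIndependent R ![T1 a b0 b3 b1 b2 bi, T2 a b0 b3 b1 b2 bi] by
        convert h' using 1
        funext j
        fin_cases j <;> rfl)) x y hxy
  exact this

theorem necessary {R : Type*} [CommRing R] (a b0 b3 : Rˣ) (b1 b2 bi : R)
    (h : TrivialLinksIndependent a b0 b3 b1 b2 bi) :
    bi = 0 ∧ b0 * b1 = b2 * b3 ∧ b0 * (b0 + a ^ 2 * b2) = b3 * (b1 + a ^ 2 * b3) ∧
      ((a : R) * b0 ^ 3 + b3 ^ 3) * (b0 + a ^ 2 * b2) = 0 ∧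
      ((a : R) * b0 ^ 3 + b3 ^ 3) * (b2 + a ^ 2 * b0) = 0 := by
  obtain ⟨p1, p1'⟩ := pair_zero h (p1_rel a b0 b3 b1 b2 bi)
  have hbi : bi = 0 := by
    have h3 : ((a ^ 3 : Rˣ) : R) * bi = 0 := by
      push_cast
      linear_combination p1'
    exact (Units.mul_right_eq_zero _).mp h3
  subst hbi
  have r1 := hopf_rel1 a b0 b3 b1 b2 0
  have r2 := hopf_rel2 a b0 b3 b1 b2 0
  have r4 := new_rel_N a b0 b3 b1 b2 0
  have r5 := new_rel_D a b0 b3 b1 b2 0
  obtain ⟨q1, q2⟩ := pair_zero h (x := b0 * (b0 + a ^ 2 * b2) - b3 * (b1 + a ^ 2 * b3))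
    (y := a * (b0 * b1 - b2 * b3)) (by
      linear_combination (norm := module) (b0 : R) • r1 - (b3 : R) • r2)
  have q2' : b0 * b1 - b2 * b3 = 0 := by
    have := congrArg (fun z => ((a⁻¹ : Rˣ) : R) * z) q2
    simpa using this
  obtain ⟨v1, _⟩ := pair_zero h (x := ((a : R) * b0 ^ 3 + b3 ^ 3) * a ^ 2
      + a * (a * b0 * (b0 * b1 - b2 * b3)) + (a * b0 ^ 2 * b2 + b1 * b3 ^ 2))
    (y := a * (-(b3 : R) * (b0 * b1 - b2 * b3))) (by
      linear_combination (norm := module) r4)
  obtain ⟨w1, _⟩ := pair_zero h (x := ((a : R) * b0 ^ 3 + b3 ^ 3)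
      + a ^ 2 * (a * b0 ^ 2 * b2 + b1 * b3 ^ 2) + a * (-(b3 : R) * (b0 * b1 - b2 * b3)))
    (y := a * (a * b0 * (b0 * b1 - b2 * b3))) (by
      linear_combination (norm := module) r5)
  rw [q2'] at v1 w1
  refine ⟨rfl, by linear_combination q2', by linear_combination q1, ?_, ?_⟩
  · linear_combination (b0 : R) * w1 - (a : R) ^ 2 * b3 ^ 2 * q2'
  · linear_combination (b0 : R) * v1 - (b3 : R) ^ 2 * q2'

theorem sufficientI {R : Type*} [CommRing R] (a b0 b3 : Rˣ) (ha : (a : R) ^ 4 = 1) :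
    TrivialLinksIndependent a b0 b3 (-(a ^ 2 * b3)) (-(a ^ 2 * b0)) (0 : R) := by
  obtain ⟨P, hP, hT⟩ := two_invariant (a : R) ha
  apply independent_of_invariant P _ hT
  apply relations_le_ker
  · intro A B n k hA hB hk
    have w1 : width n [(k, Piece.pos)] = some n := by
      have : n - 2 + 2 = n := by omega
      simp [width, Piece.low, Piece.high, hk, this]
    have w2 : width n [(k, Piece.pos), (k, Piece.pos)] = some n := by
      simp [width, Piece.low, Piece.high]; omega
    have w3 : width n [(k, Piece.pos), (k, Piece.pos), (k, Piece.pos)] = some n := by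
      simp [width, Piece.low, Piece.high]; omega
    have c0 : width 0 (A ++ B) = some 0 := by rw [width_append, hA]; simp [hB]
    have c1 := closed_of hA w1 hB
    have c2 := closed_of hA w2 hB
    have c3 := closed_of hA w3 hB
    rw [ext_link P c0, ext_link P c1, ext_link P c2, ext_link P c3, zero_smul, add_zero]
    have e2 : P (mkLink _ c2) = (a : R) ^ 2 • P (mkLink _ c0) :=
      hP _ _ _ (MoveRel.twist (X := [(0, Piece.pos), (0, Piece.pos)]) (e := 2)
        A B n k hA hB hk c2 c0)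
    have hA1 : width 0 (A ++ [(k, Piece.pos)]) = some n := by
      rw [width_append, hA]; simpa using w1
    have c3' : width 0 (A ++ [(k, Piece.pos)] ++ shiftWord k [(0, Piece.pos), (0, Piece.pos)] ++ B)
        = some 0 := by
      simpa [shiftWord, List.append_assoc] using c3
    have e3 : P (mkLink _ c3) = (a : R) ^ 2 • P (mkLink _ c1) := by
      have := hP _ _ _ (MoveRel.twist (A ++ [(k, Piece.pos)]) B n k hA1 hB hk c3' c1)
      have e : mkLink _ c3' = mkLink _ c3 := by
        congr 1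
        simp [shiftWord, List.append_assoc]
      rw [← e]
      exact this
    rw [e2, e3]
    have e4 : (a : R) ^ 2 * a ^ 2 = 1 := by rw [← pow_add]; exact ha
    generalize P (mkLink _ c0) = x
    generalize P (mkLink _ c1) = y
    have : (b0 : R) • x + -((a : R) ^ 2 * b3) • y + -((a : R) ^ 2 * b0) • (a : R) ^ 2 • x
        + (b3 : R) • (a : R) ^ 2 • y = ((b0 : R) * (1 - a ^ 2 * a ^ 2)) • x := by module
    rw [this, e4, sub_self, mul_zero, zero_smul]
  · intro A B n k hA hB hk
    have w1 : width n [(k + 1, Piece.cup), (k, Piece.pos), (k + 1, Piece.cap)] = some n := by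
      simp [width, Piece.low, Piece.high]; omega
    have c0 : width 0 (A ++ B) = some 0 := by rw [width_append, hA]; simp [hB]
    have c1 := closed_of hA w1 hB
    rw [ext_link P c0, ext_link P c1]
    have := hP _ _ _ (MoveRel.curl A B n k hA hB hk c1 c0)
    have h1 : (1 : ZMod 4).val = 1 := rfl
    rw [h1, pow_one] at this
    exact this

theorem sufficientIV {R : Type*} [CommRing R] (a b0 b3 : Rˣ) (ha : (a : R) ^ 8 = 1)
    (hb : (b0 : R) = -(a ^ 5 * b3)) : TrivialLinksIndependent a b0 b3 0 0 (0 : R) := by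
  obtain ⟨P, hP, hT⟩ := three_invariant (a : R) ha
  apply independent_of_invariant P _ hT
  apply relations_le_ker
  · intro A B n k hA hB hk
    have w3 : width n [(k, Piece.pos), (k, Piece.pos), (k, Piece.pos)] = some n := by
      simp [width, Piece.low, Piece.high]; omega
    have c0 : width 0 (A ++ B) = some 0 := by rw [width_append, hA]; simp [hB]
    have c3 := closed_of hA w3 hB
    simp only [zero_smul, add_zero]
    rw [ext_link P c0, ext_link P c3]
    have e3 : P (mkLink _ c3) = (a : R) ^ 5 • P (mkLink _ c0) :=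
      hP _ _ _ (MoveRel.twist (X := [(0, Piece.pos), (0, Piece.pos), (0, Piece.pos)]) (e := 5)
        A B n k hA hB hk c3 c0)
    rw [e3, hb]
    module
  · intro A B n k hA hB hk
    have w1 : width n [(k + 1, Piece.cup), (k, Piece.pos), (k + 1, Piece.cap)] = some n := by
      simp [width, Piece.low, Piece.high]; omega
    have c0 : width 0 (A ++ B) = some 0 := by rw [width_append, hA]; simp [hB]
    have c1 := closed_of hA w1 hB
    rw [ext_link P c0, ext_link P c1]
    have := hP _ _ _ (MoveRel.curl A B n k hA hB hk c1 c0)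
    have h1 : (1 : ZMod 8).val = 1 := rfl
    rw [h1, pow_one] at this
    exact this

theorem domain_cases {R : Type*} [CommRing R] [IsDomain R] (a b0 b3 : Rˣ) (b1 b2 : R)
    (q2 : b0 * b1 = b2 * b3) (q1 : b0 * (b0 + a ^ 2 * b2) = b3 * (b1 + a ^ 2 * b3))
    (u : ((a : R) * b0 ^ 3 + b3 ^ 3) * (b0 + a ^ 2 * b2) = 0)
    (v : ((a : R) * b0 ^ 3 + b3 ^ 3) * (b2 + a ^ 2 * b0) = 0) :
    FamilyI a b0 b3 b1 b2 ∨ FamilyII a b0 b3 b1 b2 ∨ FamilyIII a b0 b3 b1 b2 := by
  have hb0 : (b0 : R) ≠ 0 := b0.ne_zero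
  have hb3 : (b3 : R) ≠ 0 := b3.ne_zero
  by_cases hc : (a : R) * b0 ^ 3 + b3 ^ 3 = 0
  · right
    have e1 : (a : R) * b0 ^ 3 = -(b3 : R) ^ 3 := by linear_combination hc
    have e2 : (a : R) ^ 2 * b0 ^ 6 = b3 ^ 6 := by
      linear_combination ((a : R) * b0 ^ 3 - b3 ^ 3) * e1
    have key : ((b0 : R) ^ 4 - b3 ^ 4) * (b0 ^ 4 + b3 ^ 4 - b0 ^ 2 * b1 * b3) = 0 := by
      linear_combination (b0 : R) ^ 6 * q1 + (b3 ^ 2 - b0 * b2) * e2 + (b0 * b3 ^ 5) * q2
    rcases mul_eq_zero.mp key with h0 | h0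
    · left
      have f1 : (b0 : R) = -(a * b3) := by
        have : (b3 : R) ^ 3 * (a * b3 + b0) = 0 := by
          linear_combination (b0 : R) * e1 - (a : R) * h0
        rcases mul_eq_zero.mp this with h1 | h1
        · exact absurd h1 (pow_ne_zero _ hb3)
        · linear_combination h1
      refine ⟨?_, f1, ?_⟩
      · have : (b3 : R) ^ 4 * (a ^ 4 - 1) = 0 := by
          have e : (b0 : R) ^ 4 = a ^ 4 * b3 ^ 4 := by rw [f1]; ring
          linear_combination h0 - e
        rcases mul_eq_zero.mp this with h1 | h1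
        · exact absurd h1 (pow_ne_zero _ hb3)
        · linear_combination h1
      · have : (b3 : R) * (b2 + a * b1) = 0 := by
          rw [f1] at q2
          linear_combination -q2
        rcases mul_eq_zero.mp this with h1 | h1
        · exact absurd h1 hb3
        · linear_combination h1
    · right
      exact ⟨e1, q2, by linear_combination -h0⟩
  · left
    have g1 : (b0 : R) + a ^ 2 * b2 = 0 := (mul_eq_zero.mp u).resolve_left hc
    have g0 : b2 + (a : R) ^ 2 * b0 = 0 := (mul_eq_zero.mp v).resolve_left hc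
    have g2 : (a : R) ^ 4 = 1 := by
      have : (b0 : R) * ((a : R) ^ 4 - 1) = 0 := by linear_combination (a : R) ^ 2 * g0 - g1
      rcases mul_eq_zero.mp this with h1 | h1
      · exact absurd h1 hb0
      · linear_combination h1
    have g3 : b1 = -((a : R) ^ 2 * b3) := by
      have : (b0 : R) * (b1 + a ^ 2 * b3) = 0 := by linear_combination q2 + (b3 : R) * g0
      rcases mul_eq_zero.mp this with h1 | h1
      · exact absurd h1 hb0
      · linear_combination h1
    exact ⟨g2, g3, by linear_combination g0⟩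

theorem binomial_of {R : Type*} [CommRing R] [IsDomain R] (a b0 b3 : Rˣ) (b1 b2 : R)
    (h : FamilyII a b0 b3 b1 b2 ∨ FamilyIII a b0 b3 b1 b2) (hb1 : b1 = 0) :
    BinomialFamily a b0 b3 b1 b2 := by
  have hb0 : (b0 : R) ≠ 0 := b0.ne_zero
  have hb3 : (b3 : R) ≠ 0 := b3.ne_zero
  subst hb1
  rcases h with ⟨h1, h2, h3⟩ | ⟨h1, h2, h3⟩
  · refine ⟨rfl, by simpa using h3, ?_, ?_⟩
    · linear_combination ((a : R) ^ 4 + 1) * h1
    · linear_combination h2 + (a : R) * b3 * h1
  · have h2' : b2 = 0 := by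
      have : b2 * (b3 : R) = 0 := by linear_combination -h2
      exact (mul_eq_zero.mp this).resolve_right hb3
    have f1 : (b0 : R) = a * b3 := by
      have : (b3 : R) ^ 3 * (a * b3 - b0) = 0 := by
        linear_combination -(b0 : R) * h1 - (a : R) * h3
      rcases mul_eq_zero.mp this with h4 | h4
      · exact absurd h4 (pow_ne_zero _ hb3)
      · linear_combination -h4
    have f2 : (a : R) ^ 4 = -1 := by
      have : (b3 : R) ^ 4 * (a ^ 4 + 1) = 0 := by
        have e : (b0 : R) ^ 4 = a ^ 4 * b3 ^ 4 := by rw [f1]; ring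
        linear_combination -h3 - e
      rcases mul_eq_zero.mp this with h4 | h4
      · exact absurd h4 (pow_ne_zero _ hb3)
      · linear_combination h4
    refine ⟨rfl, h2', ?_, ?_⟩
    · linear_combination ((a : R) ^ 4 - 1) * f2
    · linear_combination f1 + (a : R) * b3 * f2

/-- Linear independence of the trivial links. Over every commutative ring: necessary equations, and
two families of parameters for which independence holds. Over an integral domain, these two
families are all parameters with independence, except possibly for further members of the families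
II and III with `b_∞ = 0`, `b_1 ≠ 0`. -/
theorem result {R : Type*} [CommRing R] (a b0 b3 : Rˣ) (b1 b2 bi : R) :
    (TrivialLinksIndependent a b0 b3 b1 b2 bi →
      bi = 0 ∧ b0 * b1 = b2 * b3 ∧ b0 * (b0 + a ^ 2 * b2) = b3 * (b1 + a ^ 2 * b3) ∧
        ((a : R) * b0 ^ 3 + b3 ^ 3) * (b0 + a ^ 2 * b2) = 0 ∧
        ((a : R) * b0 ^ 3 + b3 ^ 3) * (b2 + a ^ 2 * b0) = 0) ∧
    (bi = 0 ∧ (FamilyI a b0 b3 b1 b2 ∨ BinomialFamily a b0 b3 b1 b2) →
      TrivialLinksIndependent a b0 b3 b1 b2 bi) ∧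
    (IsDomain R →
      (TrivialLinksIndependent a b0 b3 b1 b2 bi ↔
        bi = 0 ∧ (FamilyI a b0 b3 b1 b2 ∨ BinomialFamily a b0 b3 b1 b2)) ∨
      (bi = 0 ∧ b1 ≠ 0 ∧ (FamilyII a b0 b3 b1 b2 ∨ FamilyIII a b0 b3 b1 b2))) := by
  have suff : bi = 0 ∧ (FamilyI a b0 b3 b1 b2 ∨ BinomialFamily a b0 b3 b1 b2) →
      TrivialLinksIndependent a b0 b3 b1 b2 bi := by
    rintro ⟨rfl, ⟨h1, rfl, rfl⟩ | ⟨rfl, rfl, h1, h2⟩⟩
    · exact sufficientI a b0 b3 h1
    · exact sufficientIV a b0 b3 h1 h2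
  refine ⟨necessary a b0 b3 b1 b2 bi, suff, ?_⟩
  intro hR
  by_cases hex : bi = 0 ∧ b1 ≠ 0 ∧ (FamilyII a b0 b3 b1 b2 ∨ FamilyIII a b0 b3 b1 b2)
  · exact Or.inr hex
  · left
    refine ⟨fun h => ?_, suff⟩
    obtain ⟨h0, q2, q1, u, v⟩ := necessary a b0 b3 b1 b2 bi h
    refine ⟨h0, ?_⟩
    rcases domain_cases a b0 b3 b1 b2 q2 q1 u v with h1 | h1
    · exact Or.inl h1
    · right
      apply binomial_of a b0 b3 b1 b2 h1
      by_contra hb
      exact hex ⟨h0, hb, h1⟩

end Pool.Agent.Results.MP_115300_gt.Classification
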